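import Pool.Agent.MP_ca0a54_nt.H29.Spec
import Pool.Agent.MP_ca0a54_nt.H10.QB
import Pool.Agent.MP_ca0a54_nt.H91.SC

/-! Row QL: the quadratic mean value on the line `im z = -y`. -/

open Complex MeasureTheory Filter Topology

namespace Pool.Agent.MP_ca0a54_nt.H62

open Pool.Agent.MP_ca0a54_nt.L0 Pool.Agent.MP_ca0a54_nt.H24 Pool.Agent.MP_ca0a54_nt.H29
open Pool.Agent.MP_ca0a54_nt.H10

theorem bd_sh {F : ℂ → ℂ} {a b a' b' : ℝ} (s : ℂ) (hF : Bd F a b) (ha : a ≤ a' + s.im)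
    (hb : b' + s.im ≤ b) : Bd (fun w => F (w + s)) a' b' := by
  obtain ⟨d1, M, h0, h1⟩ := hF
  have hs : ∀ w ∈ St a' b', w + s ∈ St a b := fun w hw => by
    constructor
    · rw [add_im]
      linarith [hw.1]
    · rw [add_im]
      linarith [hw.2]
  exact ⟨d1.comp (Differentiable.differentiableOn (by fun_prop)) hs, M, h0,
    fun w hw => h1 _ (hs w hw)⟩

theorem li_tail {F : ℂ → ℂ} {γ t M X : ℝ} (hF : Bd F γ γ) (hX : 0 ≤ X)
    (hM : ∀ x : ℝ, ‖F (x + γ * I)‖ ≤ M) :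
    ‖li F t γ - ∫ x in (t - X)..(t + X), F (x + γ * I) * ga t (x + γ * I)‖ ≤
      M * Real.exp (-X ^ 2 / 4) * Real.exp (γ ^ 2) * K0 := by
  classical
  have hM0 : 0 ≤ M := (norm_nonneg _).trans (hM 0)
  have key : li F t γ - ∫ x in (t - X)..(t + X), F (x + γ * I) * ga t (x + γ * I) =
      li (fun z => if z.re ∈ Set.Ioc (t - X) (t + X) then 0 else F z) t γ := by
    rw [intervalIntegral.integral_of_le (by linarith), li,
      ← setIntegral_compl measurableSet_Ioc (hF.intg t),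
      ← integral_indicator measurableSet_Ioc.compl, li]
    congr 1
    funext x
    have h : ((x : ℂ) + γ * I).re = x := by simp
    rw [h]
    by_cases hx : x ∈ Set.Ioc (t - X) (t + X)
    · rw [if_pos hx, Set.indicator_of_notMem (by simpa using hx), zero_mul]
    · rw [if_neg hx, Set.indicator_of_mem hx]
  rw [key]
  refine li_bound fun x => ?_
  have h : ((x : ℂ) + γ * I).re = x := by simp
  rw [h]
  split_ifs with hx
  · rw [norm_zero]
    positivity
  · refine (hM x).trans ?_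
    rw [mul_assoc, ← Real.exp_add]
    refine le_mul_of_one_le_right hM0 (Real.one_le_exp ?_)
    rw [Set.mem_Ioc, not_and_or, not_lt, not_le] at hx
    rcases hx with hx | hx <;> nlinarith

theorem rect_bound {G : ℂ → ℂ} {γ₁ γ₂ t X b : ℝ} (hγ : γ₁ ≤ γ₂) (hX : 0 ≤ X)
    (hG : DifferentiableOn ℂ G {z | |z.re - t| ≤ X ∧ γ₁ ≤ z.im ∧ z.im ≤ γ₂})
    (h : ∀ z : ℂ, |z.re - t| = X → γ₁ ≤ z.im → z.im ≤ γ₂ → ‖G z‖ ≤ b) :
    ‖(∫ x in (t - X)..(t + X), G (x + γ₂ * I)) - ∫ x in (t - X)..(t + X), G (x + γ₁ * I)‖ ≤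
      2 * (b * (γ₂ - γ₁)) := by
  have hv : ∀ x : ℝ, |x - t| = X → ‖∫ y in γ₁..γ₂, G (x + y * I)‖ ≤ b * (γ₂ - γ₁) := fun x hx => by
    have := intervalIntegral.norm_integral_le_of_norm_le_const (a := γ₁) (b := γ₂) (C := b)
      (f := fun y : ℝ => G (x + y * I)) fun y hy => by
        rw [Set.uIoc_of_le hγ] at hy
        exact h _ (by simpa using hx) (by simpa using hy.1.le) (by simpa using hy.2)
    rwa [abs_of_nonneg (sub_nonneg.2 hγ)] at this
  have h4 := integral_boundary_rect_eq_zero_of_differentiableOn G ⟨t - X, γ₁⟩ ⟨t + X, γ₂⟩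
    (hG.mono fun z hz => by
      have h1 := hz.1
      have h2 := hz.2
      simp only [Set.mem_preimage, Set.uIcc_of_le hγ,
        Set.uIcc_of_le (show t - X ≤ t + X by linarith)] at h1 h2
      exact ⟨abs_le.2 ⟨by linarith [h1.1], by linarith [h1.2]⟩, h2⟩)
  simp only [smul_eq_mul] at h4
  have h5 : (∫ x in (t - X)..(t + X), G (x + γ₂ * I)) - ∫ x in (t - X)..(t + X), G (x + γ₁ * I) =
      I * (∫ y in γ₁..γ₂, G ((t + X : ℝ) + y * I)) -
        I * ∫ y in γ₁..γ₂, G ((t - X : ℝ) + y * I) := by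
    linear_combination -h4
  rw [h5]
  refine (norm_sub_le _ _).trans ?_
  rw [norm_mul, norm_mul, norm_I, one_mul, one_mul]
  have h6 := hv (t + X) (by rw [add_sub_cancel_left, abs_of_nonneg hX])
  have h7 := hv (t - X) (by rw [sub_sub_cancel_left, abs_neg, abs_of_nonneg hX])
  linarith

theorem dp_crude {r : ℕ → ℂ} (hr : ∀ n, ‖r n‖ ≤ 1) (N : ℕ) (z : ℂ) (hz : z.im ≤ 1 / 2) :
    ‖dp r N z‖ ≤ N := by
  unfold dp ds
  refine (norm_sum_le _ _).trans ((Finset.sum_le_card_nsmul _ _ 1 fun n _ => ?_).trans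
    (le_of_eq ?_))
  · rw [norm_mul, norm_np, re_s]
    refine mul_le_one₀ (hr n) (Real.exp_pos _).le (Real.exp_le_one_iff.2 ?_)
    nlinarith [Real.log_natCast_nonneg n]
  · rw [nsmul_eq_mul, Nat.card_Icc, Nat.add_sub_cancel, mul_one]

theorem Rs_crude {r : ℕ → ℂ} (hr : ∀ n, ‖r n‖ ≤ 1) (N : ℕ) (z : ℂ) (hz : -(3 / 2) ≤ z.im) :
    ‖Rs r N z‖ ≤ N * N := by
  unfold Rs
  refine (norm_sum_le _ _).trans ((Finset.sum_le_card_nsmul _ _ (N : ℝ) fun n hn => ?_).trans
    (le_of_eq ?_))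
  · rw [Finset.mem_Icc] at hn
    have h1 : -(1 / 2 + -I * z).re = -(1 / 2) - z.im := by
      simp
      ring
    have hp : (0 : ℝ) < n := Nat.cast_pos.2 hn.1
    rw [norm_mul, norm_np, h1, RCLike.norm_conj]
    refine (mul_le_of_le_one_left (Real.exp_pos _).le (hr n)).trans ?_
    refine le_trans ?_ (Nat.cast_le.2 hn.2)
    rw [← Real.exp_log hp]
    refine Real.exp_le_exp.2 ?_
    rw [Real.log_exp]
    nlinarith [Real.log_natCast_nonneg n]
  · rw [nsmul_eq_mul, Nat.card_Icc, Nat.add_sub_cancel]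

/-- `ζ(1 + η)`. -/
noncomputable def Zc (η : ℝ) : ℝ := ∑' n : ℕ, 1 / (n : ℝ) ^ (1 + η)

theorem Zc_nonneg (η : ℝ) : 0 ≤ Zc η := tsum_nonneg fun _ => by positivity

theorem norm_D {d : ℕ → ℂ} {B η : ℝ} (hB : 0 ≤ B) (hη : 0 < η)
    (hd : ∀ n : ℕ, ‖d n‖ ≤ B * Real.exp (η * Real.log n)) (z : ℂ) (hz : z.im ≤ -(1 / 2 + 2 * η)) :
    ‖LSeries d (1 / 2 + I * z)‖ ≤ B * Zc η := by
  have h0 : Summable fun n : ℕ => 1 / (n : ℝ) ^ (1 + η) :=
    Real.summable_one_div_nat_rpow.2 (by linarith)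
  refine tsum_of_norm_bounded (h0.hasSum.mul_left B) fun n => ?_
  rcases eq_or_ne n 0 with rfl | hn
  · rw [LSeries.term_zero, norm_zero]
    positivity
  · have hp : (0 : ℝ) < n := Nat.cast_pos.2 (Nat.pos_of_ne_zero hn)
    rw [term_eq _ _ hn, norm_mul, norm_np, re_s, Real.rpow_def_of_pos hp, one_div (Real.exp _),
      ← Real.exp_neg]
    refine (mul_le_mul_of_nonneg_right (hd n) (Real.exp_pos _).le).trans ?_
    rw [mul_assoc, ← Real.exp_add]
    refine mul_le_mul_of_nonneg_left (Real.exp_le_exp.2 ?_) hB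
    nlinarith [Real.log_natCast_nonneg n]

theorem ev_small (C : ℝ) (hC : 0 ≤ C) :
    ∀ᶠ T : ℝ in atTop, C * Real.exp (7 * Real.log T ^ 3 - T / 16) ≤ 1 := by
  filter_upwards [Real.tendsto_log_atTop.eventually (ev_pow (16 * (C + 7)) 1 one_pos 3),
    Real.tendsto_log_atTop.eventually (eventually_ge_atTop 1), eventually_gt_atTop (0 : ℝ)]
    with T h1 h2 hT
  rw [one_mul, Real.exp_log hT] at h1
  have h3 : 1 ≤ Real.log T ^ 3 := one_le_pow₀ h2
  have h4 : C ≤ Real.exp C := by linarith [Real.add_one_le_exp C]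
  refine (mul_le_mul_of_nonneg_right h4 (Real.exp_pos _).le).trans ?_
  rw [← Real.exp_add]
  refine Real.exp_le_one_iff.2 ?_
  nlinarith

theorem pt_real (r : ℕ → ℂ) (N : ℕ) (t y x : ℝ) :
    Rs r N (((t + x : ℝ) : ℂ) + (0 : ℝ) * I + y * I) =
      (starRingEnd ℂ) (dp r N ((t + x : ℝ) - y * I)) ∧
    ga t (((t + x : ℝ) : ℂ) + (0 : ℝ) * I) = (Real.exp (-x ^ 2) : ℝ) ∧
    ((t + x : ℝ) : ℂ) + (0 : ℝ) * I + -(y * I) = (t + x : ℝ) - y * I := by
  refine ⟨?_, ?_, ?_⟩
  · rw [conj_dp]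
    congr 1
    simp
  · rw [ga]
    push_cast
    congr 1
    ring
  · rw [ofReal_zero, zero_mul, add_zero, sub_eq_add_neg]

theorem li_line (P : ℂ → ℂ) (r : ℕ → ℂ) (N : ℕ) (t y : ℝ) :
    li (fun w => P (w + -(y * I)) * Rs r N (w + y * I)) t 0 =
      ∫ x : ℝ, P ((t + x : ℝ) - y * I) * (starRingEnd ℂ) (dp r N ((t + x : ℝ) - y * I)) *
        (Real.exp (-x ^ 2) : ℝ) := by
  unfold li
  rw [← integral_add_left_eq_self _ t]
  congr 1
  funext x
  obtain ⟨h1, h2, h3⟩ := pt_real r N t y x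
  beta_reduce
  rw [h1, h2, h3]

theorem seg_line (F : ℂ → ℂ) (r : ℕ → ℂ) (N : ℕ) (t y X : ℝ) :
    ∫ x in (-X)..X, F ((t + x : ℝ) - y * I) *
        (‖dp r N ((t + x : ℝ) - y * I)‖ ^ 2 * Real.exp (-x ^ 2) : ℝ) =
      ∫ x in (t - X)..(t + X), F (x + (0 : ℝ) * I + -(y * I)) *
        (dp r N (x + (0 : ℝ) * I + -(y * I)) * Rs r N (x + (0 : ℝ) * I + y * I)) *
          ga t (x + (0 : ℝ) * I) := by
  rw [sub_eq_add_neg t X, ← intervalIntegral.integral_comp_add_left
    (fun x : ℝ => F (x + (0 : ℝ) * I + -(y * I)) *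
      (dp r N (x + (0 : ℝ) * I + -(y * I)) * Rs r N (x + (0 : ℝ) * I + y * I)) *
        ga t (x + (0 : ℝ) * I)) t]
  congr 1
  funext x
  obtain ⟨h1, h2, h3⟩ := pt_real r N t y x
  rw [h1, h2, h3, mul_conj, normSq_eq_norm_sq]
  push_cast
  ring

theorem fin0 {L T γ : ℝ} (hL : 1 ≤ L) (hT : 0 ≤ T) (h1 : -1 ≤ γ) (h0 : γ ≤ 0)
    (hT0 : 6 * Real.exp (7 * L ^ 3 - T / 16) ≤ 1) :
    2 * (Real.exp (L ^ 3) * Real.exp (3 * L) * Real.exp (1 - T / 4) * (0 - γ)) ≤
      Real.exp (L * -(1 / 2)) / 3 := by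
  have hL3 : L ≤ L ^ 3 := le_self_pow₀ hL (by norm_num)
  have h2 : Real.exp (L ^ 3) * Real.exp (3 * L) * Real.exp (1 - T / 4) ≤
      Real.exp (7 * L ^ 3 - T / 16) * Real.exp (L * -(1 / 2)) := by
    rw [← Real.exp_add, ← Real.exp_add, ← Real.exp_add]
    exact Real.exp_le_exp.2 (by linarith)
  have h3 := mul_le_mul h2 (by linarith : 0 - γ ≤ 1) (by linarith) (by positivity)
  have h4 := mul_le_mul_of_nonneg_right hT0 (Real.exp_pos (L * -(1 / 2))).le
  linarith

theorem fin1 {L T X γ Z K : ℝ} (hL : 1 ≤ L) (hX2 : X ^ 2 = T / 4) (h1 : -1 ≤ γ) (h0 : γ ≤ 0)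
    (hZ : 0 ≤ Z) (hK : 0 ≤ K) (hT1 : 3 * Z * K * Real.exp (7 * L ^ 3 - T / 16) ≤ 1) :
    L ^ 2 * Z * Real.exp (3 * L) * Real.exp (-X ^ 2 / 4) * Real.exp (γ ^ 2) * K ≤
      Real.exp (L * -(1 / 2)) / 3 := by
  have hL3 : L ≤ L ^ 3 := le_self_pow₀ hL (by norm_num)
  have h2 : L ^ 2 ≤ Real.exp (L + L) := by
    rw [Real.exp_add, pow_two]
    have := Real.add_one_le_exp L
    gcongr <;> linarith
  have h3 : Real.exp (L + L) * (Real.exp (3 * L) * Real.exp (-X ^ 2 / 4) * Real.exp (γ ^ 2)) ≤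
      Real.exp (7 * L ^ 3 - T / 16) * Real.exp (L * -(1 / 2)) := by
    rw [← Real.exp_add, ← Real.exp_add, ← Real.exp_add, ← Real.exp_add, hX2]
    refine Real.exp_le_exp.2 ?_
    have : γ ^ 2 ≤ 1 := by nlinarith
    linarith
  have h4 := (mul_le_mul_of_nonneg_right h2 (by positivity)).trans h3
  have h5 := mul_le_mul_of_nonneg_left h4 (mul_nonneg hZ hK)
  have h6 := mul_le_mul_of_nonneg_right hT1 (Real.exp_pos (L * -(1 / 2))).le
  linarith

theorem fin2 {L γ A K : ℝ} (h1 : -A ≤ γ) (h0 : γ ≤ A) (hK : 0 ≤ K)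
    (hT2 : 3 * 2 * Real.exp (A ^ 2) * K * L ^ 2 ≤ Real.exp (1 / 4 * L)) :
    2 * L ^ 2 * Real.exp (-(3 / 4) * L) * Real.exp (γ ^ 2) * K ≤ Real.exp (L * -(1 / 2)) / 3 := by
  have h2 : Real.exp (γ ^ 2) ≤ Real.exp (A ^ 2) := Real.exp_le_exp.2 (sq_le_sq' h1 h0)
  have h3 : Real.exp (1 / 4 * L) * Real.exp (-(3 / 4) * L) = Real.exp (L * -(1 / 2)) := by
    rw [← Real.exp_add]
    congr 1
    ring
  have h4 := mul_le_mul_of_nonneg_right hT2 (Real.exp_pos (-(3 / 4) * L)).le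
  have h5 := mul_le_mul_of_nonneg_left h2
    (by positivity : 0 ≤ 2 * L ^ 2 * Real.exp (-(3 / 4) * L) * K)
  linarith

theorem ql : QlStmt := by
  intro ε hε hε2
  have hs := H91.shift
  set c : ℝ := 1 / 2 + ε / 8 with hcd
  set H : ℝ := 2 + 16 / ε with hHd
  have hH : 2 ≤ H := le_add_of_nonneg_right (by positivity)
  have hK := K0_nonneg
  have hZ := Zc_nonneg (ε / 16)
  have e2 := Real.tendsto_log_atTop.eventually
    (ev_pow (3 * 2 * Real.exp ((c + H) ^ 2) * K0) (1 / 4) (by norm_num) 2)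
  filter_upwards [ev_small 6 (by norm_num), ev_small (3 * Zc (ε / 16) * K0) (by positivity), e2,
    Real.tendsto_log_atTop.eventually (eventually_ge_atTop 1), eventually_gt_atTop (0 : ℝ)]
    with T hT0 hT1 hT2 hL hT N N₂ hN hNT hN₂ _ t y F d r hy hy4 hr hd hF hFb hFD
  set L := Real.log T with hLd
  set X : ℝ := √T / 2 with hXd
  have hX : 0 ≤ X := by positivity
  have hX2 : X ^ 2 = T / 4 := by
    rw [hXd, div_pow, Real.sq_sqrt hT.le]
    norm_num
  have hNp : (0 : ℝ) < N := Nat.cast_pos.2 hN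
  have hlN : Real.log N ≤ (1 - ε) * L := by
    rw [hLd, ← Real.log_rpow hT]
    exact Real.log_le_log hNp hNT
  have hl0 := Real.log_natCast_nonneg N
  have hεL : 0 < ε * L := by positivity
  have hNL : (N : ℝ) ≤ Real.exp L := by
    rw [← Real.exp_log hNp]
    exact Real.exp_le_exp.2 (by linarith)
  have hN3 : (N : ℝ) * (N * N) ≤ Real.exp (3 * L) := by
    rw [show 3 * L = L + (L + L) by ring, Real.exp_add, Real.exp_add]
    gcongr
  have hN₂1 : 1 ≤ N₂ := by
    rcases Nat.eq_zero_or_pos N₂ with h | h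
    · rw [h, Nat.cast_zero, Real.log_zero] at hN₂
      linarith
    · exact h
  have i1 : (-((y : ℂ) * I)).im = -y := by simp
  have i2 : ((y : ℂ) * I).im = y := by simp
  have hD : ∀ a, Bd (fun w => LSeries d (1 / 2 + I * (w + -(y * I)))) a (y - c) := fun a =>
    bd_sh (F := fun z => LSeries d (1 / 2 + I * z)) (-(y * I))
      (bd_D (c := c) hd (by rw [hcd]; linarith) (a - y)) (by rw [i1]; linarith)
      (by rw [i1]; linarith)
  have hP : ∀ (e : ℕ → ℂ) (M : ℕ) (a b : ℝ), Bd (fun w => dp e M (w + -(y * I))) a b :=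
    fun e M a b => bd_sh (-(y * I)) (bd_dp e M _ _) le_rfl le_rfl
  have hS : ∀ a b : ℝ, Bd (fun w => Rs r N (w + y * I)) a b :=
    fun a b => bd_sh (y * I) (bd_Rs r N _ _) le_rfl le_rfl
  have b1 : Bd (fun w => LSeries d (1 / 2 + I * (w + -(y * I))) *
      (dp r N (w + -(y * I)) * Rs r N (w + y * I))) (y - c) (y - c) :=
    (hD _).mul ((hP r N _ _).mul (hS _ _))
  have b2 : ∀ a, Bd (fun w => (LSeries d (1 / 2 + I * (w + -(y * I))) * dp r N (w + -(y * I)) -
      dp (cv d (cut r N)) N₂ (w + -(y * I))) * Rs r N (w + y * I)) a (y - c) := fun a =>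
    (((hD a).mul (hP r N _ _)).sub (hP _ _ _ _)).mul (hS _ _)
  have b3 : ∀ a b, Bd (fun w => dp (cv d (cut r N)) N₂ (w + -(y * I)) * Rs r N (w + y * I)) a b :=
    fun a b => (hP _ _ a b).mul (hS a b)
  have hW : ∀ w : ℂ, y - c ≤ w.im → w.im ≤ 0 →
      ‖dp r N (w + -(y * I)) * Rs r N (w + y * I)‖ ≤ Real.exp (3 * L) := fun w h1 h2 => by
    rw [norm_mul]
    refine (mul_le_mul (dp_crude hr N _ ?_) (Rs_crude hr N _ ?_) (norm_nonneg _) hNp.le).trans hN3
    · rw [add_im, i1]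
      linarith
    · rw [add_im, i2]
      linarith
  -- the rectangle
  have k0 := rect_bound (G := fun w => F (w + -(y * I)) *
      (dp r N (w + -(y * I)) * Rs r N (w + y * I)) * ga t w) (γ₁ := y - c) (γ₂ := 0) (t := t)
      (X := X) (b := Real.exp (L ^ 3) * Real.exp (3 * L) * Real.exp (1 - T / 4)) (by linarith) hX
      (by
        refine DifferentiableOn.mul (DifferentiableOn.mul ?_ ?_) (ga_diff t).differentiableOn
        · refine hF.comp (Differentiable.differentiableOn (by fun_prop)) fun w hw => ?_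
          obtain ⟨h1, h2, h3⟩ := hw
          refine ⟨by simpa using h1, ?_, ?_⟩
          · rw [add_im, i1]
            linarith
          · rw [add_im, i1]
            linarith
        · exact ((hP r N (y - c) 0).mul (hS _ _)).1.mono fun w hw => hw.2)
      fun w h1 h2 h3 => by
        rw [norm_mul, norm_mul, norm_ga]
        refine mul_le_mul (mul_le_mul (hFb _ (by simpa using h1.le) ?_ ?_) (hW w h2 h3)
          (norm_nonneg _) (Real.exp_pos _).le) (Real.exp_le_exp.2 ?_) (Real.exp_pos _).le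
          (by positivity)
        · rw [add_im, i1]
          linarith
        · rw [add_im, i1]
          linarith
        · rw [← sq_abs (w.re - t), h1, hX2]
          nlinarith
  -- the lower side
  have hlow : ∫ x in (t - X)..(t + X), F (x + (y - c : ℝ) * I + -(y * I)) *
      (dp r N (x + (y - c : ℝ) * I + -(y * I)) * Rs r N (x + (y - c : ℝ) * I + y * I)) *
        ga t (x + (y - c : ℝ) * I) =
      ∫ x in (t - X)..(t + X), LSeries d (1 / 2 + I * (x + (y - c : ℝ) * I + -(y * I))) *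
      (dp r N (x + (y - c : ℝ) * I + -(y * I)) * Rs r N (x + (y - c : ℝ) * I + y * I)) *
        ga t (x + (y - c : ℝ) * I) := by
    refine intervalIntegral.integral_congr fun x hx => ?_
    rw [Set.uIcc_of_le (by linarith)] at hx
    rw [hFD _ (by simpa using abs_le.2 ⟨by linarith [hx.1], by linarith [hx.2]⟩)
      (by simp; ring)]
  have k1 := li_tail (t := t) (M := L ^ 2 * Zc (ε / 16) * Real.exp (3 * L)) b1 hX fun x => by
    have h3 : ((x : ℂ) + ((y - c : ℝ) : ℂ) * I).im = y - c := by simp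
    rw [norm_mul]
    refine mul_le_mul (norm_D (by positivity) (by positivity) hd _ ?_)
      (hW _ h3.ge (by rw [h3]; linarith)) (norm_nonneg _) (by positivity)
    rw [add_im, i1, h3]
    linarith
  have k2 := li_bound (F := fun w => (LSeries d (1 / 2 + I * (w + -(y * I))) *
      dp r N (w + -(y * I)) - dp (cv d (cut r N)) N₂ (w + -(y * I))) * Rs r N (w + y * I))
      (γ := y - c - H) (t := t) (B := 2 * L ^ 2 * Real.exp (-(3 / 4) * L)) fun x => by
    have h3 : ((x : ℂ) + ((y - c - H : ℝ) : ℂ) * I).im = y - c - H := by simp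
    have h4 := tail_bound (by positivity) (by positivity) hH hd hr N N₂ hN₂1
      ((x : ℂ) + ((y - c - H : ℝ) : ℂ) * I + -(y * I)) (by rw [add_im, i1, h3]; linarith)
    have h5 := norm_Rs hr hN ((x : ℂ) + ((y - c - H : ℝ) : ℂ) * I + y * I)
      (by rw [add_im, i2, h3]; linarith)
    rw [add_im, i2, h3] at h5
    have h6 : (2 - H) * Real.log N₂ + (1 / 2 - (y - c - H + y)) * Real.log N ≤ -(3 / 4) * L := by
      have h7 : (H - 2) * (ε * L / 4) = 4 * L := by
        rw [hHd]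
        field_simp
        ring
      have h8 := mul_le_mul_of_nonneg_left hN₂ (sub_nonneg.2 hH)
      have h9 : Real.log N ≤ L := by linarith
      have h10 : ε * Real.log N ≤ 1 / 2 * L := mul_le_mul hε2 h9 hl0 (by norm_num)
      have h11 := mul_nonneg hy.le hl0
      rw [hcd]
      nlinarith
    rw [norm_mul]
    refine (mul_le_mul h4 h5 (norm_nonneg _) (by positivity)).trans ?_
    rw [mul_assoc, ← Real.exp_add]
    refine (mul_le_mul_of_nonneg_left (Real.exp_le_exp.2 h6) (by positivity)).trans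
      (le_mul_of_one_le_right (by positivity) (Real.one_le_exp (by positivity)))
  have hsplit : (fun w => LSeries d (1 / 2 + I * (w + -(y * I))) *
      (dp r N (w + -(y * I)) * Rs r N (w + y * I))) = fun w =>
      (LSeries d (1 / 2 + I * (w + -(y * I))) * dp r N (w + -(y * I)) -
        dp (cv d (cut r N)) N₂ (w + -(y * I))) * Rs r N (w + y * I) +
        dp (cv d (cut r N)) N₂ (w + -(y * I)) * Rs r N (w + y * I) := by
    funext w
    ring
  rw [hsplit, li_add (b2 _) (b3 _ _), li_shift hs (by linarith : y - c ≤ 0) (b3 _ _),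
    ← li_shift hs (by linarith : y - c - H ≤ y - c) (b2 _), li_line] at k1
  beta_reduce at k0 k1
  rw [hlow] at k0
  rw [seg_line, Real.rpow_def_of_pos hT, ← hLd]
  have tri : ∀ A B C D : ℂ, ‖A - D‖ ≤ ‖A - B‖ + ‖C + D - B‖ + ‖C‖ := fun A B C D => by
    have h : A - D = A - B - (C + D - B) + C := by ring
    rw [h]
    exact (norm_add_le _ _).trans (add_le_add_left (norm_sub_le _ _) _)
  refine (tri _ _ _ _).trans ((add_le_add_three k0 k1 k2).trans ?_)
  have hγ1 : -1 ≤ y - c := by linarith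
  have hγ0 : y - c ≤ 0 := by linarith
  have m0 := fin0 hL hT.le hγ1 hγ0 hT0
  have m1 := fin1 hL hX2 hγ1 hγ0 hZ hK hT1
  have m2 := fin2 (L := L) (γ := y - c - H) (A := c + H) (by linarith) (by linarith) hK hT2
  linarith

end Pool.Agent.MP_ca0a54_nt.H62
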