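import Pool.Agent.MP_ca0a54_nt.H24.Spec

/-!
A Tauberian theorem of Karamata type and the mass of short windows.
-/

open Complex MeasureTheory Filter Topology

namespace Pool.Agent.MP_ca0a54_nt.H62

open Pool.Agent.MP_ca0a54_nt.H24

/-- The discrete functional. -/
noncomputable def fA (c : ℝ → ℕ → ℂ) (F : ℝ → ℝ) (L : ℝ) : ℂ :=
  ∑' n : ℕ, c L n * (F (Real.log n / L) / n : ℝ)

/-- The limit functional. -/
noncomputable def fB (g : ℝ → ℂ) (F : ℝ → ℝ) : ℂ :=
  F 0 + ∫ v in Set.Ioi (0 : ℝ), g v * F v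

theorem exp_eq {n : ℕ} (hn : 0 < n) (k L : ℝ) :
    Real.exp (-(1 + k / L) * Real.log n) = Real.exp (-k * (Real.log n / L)) / n := by
  have hn' : (0 : ℝ) < n := by exact_mod_cast hn
  rw [show -(1 + k / L) * Real.log n = -k * (Real.log n / L) - Real.log n by ring, Real.exp_sub,
    Real.exp_log hn']

theorem term_le {c : ℂ} {F : ℝ → ℝ} {η L : ℝ} (hL : 0 < L)
    (hF : ∀ v, 0 ≤ v → |F v| ≤ η * Real.exp (-v)) (n : ℕ) :
    ‖c * (F (Real.log n / L) / n : ℝ)‖ ≤ η * (‖c‖ * Real.exp (-(1 + 1 / L) * Real.log n)) := by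
  have hη : 0 ≤ η := by simpa using (abs_nonneg _).trans (hF 0 le_rfl)
  rcases Nat.eq_zero_or_pos n with rfl | hn
  · simp only [Nat.cast_zero, div_zero, ofReal_zero, mul_zero, norm_zero]
    positivity
  · have hn' : (0 : ℝ) < n := by exact_mod_cast hn
    have h1 := hF (Real.log n / L) (div_nonneg (Real.log_natCast_nonneg n) hL.le)
    rw [exp_eq hn, norm_mul, Complex.norm_real, Real.norm_eq_abs, abs_div, abs_of_pos hn',
      neg_one_mul, mul_left_comm, ← mul_div_assoc η]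
    gcongr

theorem sumA {c : ℝ → ℕ → ℂ} {F : ℝ → ℝ} {η L M : ℝ} (hL : 0 < L)
    (hF : ∀ v, 0 ≤ v → |F v| ≤ η * Real.exp (-v))
    (hs : Summable fun n : ℕ => ‖c L n‖ * Real.exp (-(1 + 1 / L) * Real.log n))
    (hM : ∑' n : ℕ, ‖c L n‖ * Real.exp (-(1 + 1 / L) * Real.log n) ≤ M) :
    (Summable fun n : ℕ => c L n * (F (Real.log n / L) / n : ℝ)) ∧ ‖fA c F L‖ ≤ η * M := by
  have hη : 0 ≤ η := by simpa using (abs_nonneg _).trans (hF 0 le_rfl)
  refine ⟨Summable.of_norm_bounded (hs.mul_left η) fun n => term_le hL hF n, ?_⟩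
  refine (tsum_of_norm_bounded (hs.mul_left η).hasSum fun n => term_le hL hF n).trans ?_
  rw [tsum_mul_left]
  exact mul_le_mul_of_nonneg_left hM hη

theorem intB {g : ℝ → ℂ} {F : ℝ → ℝ} {η G : ℝ} (hg : Continuous g) (hG : ∀ v, 0 ≤ v → ‖g v‖ ≤ G)
    (hc : Continuous F) (hF : ∀ v, 0 ≤ v → |F v| ≤ η * Real.exp (-v)) :
    IntegrableOn (fun v => g v * F v) (Set.Ioi (0 : ℝ)) ∧ ‖fB g F‖ ≤ η * (1 + G) := by
  have hη : 0 ≤ η := by simpa using (abs_nonneg _).trans (hF 0 le_rfl)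
  have hi : IntegrableOn (fun v : ℝ => G * η * Real.exp (-v)) (Set.Ioi (0 : ℝ)) :=
    (integrableOn_exp_neg_Ioi 0).const_mul _
  have hb : ∀ᵐ v ∂(volume.restrict (Set.Ioi (0 : ℝ))), ‖g v * F v‖ ≤ G * η * Real.exp (-v) := by
    filter_upwards [ae_restrict_mem measurableSet_Ioi] with v hv
    have hv0 : 0 ≤ v := le_of_lt hv
    rw [norm_mul, Complex.norm_real, Real.norm_eq_abs, mul_assoc]
    exact mul_le_mul (hG v hv0) (hF v hv0) (abs_nonneg _) ((norm_nonneg _).trans (hG v hv0))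
  refine ⟨hi.mono' (by fun_prop : Continuous fun v => g v * F v).aestronglyMeasurable hb, ?_⟩
  have h1 := norm_integral_le_of_norm_le hi hb
  rw [integral_const_mul, integral_exp_neg_Ioi_zero] at h1
  have h2 : ‖(F 0 : ℂ)‖ ≤ η := by simpa using hF 0 le_rfl
  refine (norm_add_le _ _).trans ?_
  linarith

/-- The function attached to a polynomial. -/
noncomputable def fP (P : Polynomial ℝ) (v : ℝ) : ℝ := Real.exp (-v) * P.eval (Real.exp (-v))

theorem fP_cont (P : Polynomial ℝ) : Continuous (fP P) := by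
  unfold fP
  exact (by fun_prop : Continuous fun v : ℝ => Real.exp (-v)).mul
    (P.continuous.comp (by fun_prop : Continuous fun v : ℝ => Real.exp (-v)))

theorem exp_mem {v : ℝ} (hv : 0 ≤ v) : Real.exp (-v) ∈ Set.Icc (0 : ℝ) 1 :=
  ⟨(Real.exp_pos _).le, Real.exp_le_one_iff.2 (by linarith)⟩

theorem fP_bound (P : Polynomial ℝ) : ∃ η : ℝ, ∀ v, 0 ≤ v → |fP P v| ≤ η * Real.exp (-v) := by
  obtain ⟨η, h⟩ := (isCompact_Icc (a := (0 : ℝ)) (b := 1)).exists_bound_of_continuousOn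
    P.continuous.continuousOn
  refine ⟨η, fun v hv => ?_⟩
  rw [fP, abs_mul, abs_of_pos (Real.exp_pos _), mul_comm]
  exact mul_le_mul_of_nonneg_right (h _ (exp_mem hv)) (Real.exp_pos _).le

section Main

variable {c : ℝ → ℕ → ℂ} {g : ℝ → ℂ} {G M : ℝ}

theorem fA_add {F F' : ℝ → ℝ} {L : ℝ}
    (h : Summable fun n : ℕ => c L n * (F (Real.log n / L) / n : ℝ))
    (h' : Summable fun n : ℕ => c L n * (F' (Real.log n / L) / n : ℝ)) :
    fA c (fun v => F v + F' v) L = fA c F L + fA c F' L := by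
  rw [fA, fA, fA, ← h.tsum_add h']
  refine tsum_congr fun n => ?_
  push_cast
  ring

theorem fB_add {F F' : ℝ → ℝ} (h : IntegrableOn (fun v => g v * F v) (Set.Ioi (0 : ℝ)))
    (h' : IntegrableOn (fun v => g v * F' v) (Set.Ioi (0 : ℝ))) :
    fB g (fun v => F v + F' v) = fB g F + fB g F' := by
  have : ∫ v in Set.Ioi (0 : ℝ), g v * ((F v + F' v : ℝ) : ℂ) =
      (∫ v in Set.Ioi (0 : ℝ), g v * F v) + ∫ v in Set.Ioi (0 : ℝ), g v * F' v := by
    rw [← integral_add h h']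
    refine integral_congr_ae (Eventually.of_forall fun v => ?_)
    push_cast
    ring
  rw [fB, fB, fB, this]
  push_cast
  ring

theorem poly_tendsto (hg : Continuous g) (hG : ∀ v, 0 ≤ v → ‖g v‖ ≤ G) (h0 : ∀ L, c L 0 = 0)
    (ht : ∀ k : ℕ, 1 ≤ k → Tendsto
      (fun L : ℝ => ∑' n : ℕ, c L n * (Real.exp (-(1 + k / L) * Real.log n) : ℝ)) atTop
      (𝓝 (1 + ∫ v in Set.Ioi (0 : ℝ), g v * (Real.exp (-k * v) : ℝ))))
    (hs : ∀ᶠ L : ℝ in atTop,
      (Summable fun n : ℕ => ‖c L n‖ * Real.exp (-(1 + 1 / L) * Real.log n)) ∧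
      ∑' n : ℕ, ‖c L n‖ * Real.exp (-(1 + 1 / L) * Real.log n) ≤ M) (P : Polynomial ℝ) :
    Tendsto (fA c (fP P)) atTop (𝓝 (fB g (fP P))) := by
  induction P using Polynomial.induction_on' with
  | add p q hp hq =>
    have e : fP (p + q) = fun v => fP p v + fP q v := by
      funext v
      simp only [fP, Polynomial.eval_add, mul_add]
    obtain ⟨η, hη⟩ := fP_bound p
    obtain ⟨η', hη'⟩ := fP_bound q
    rw [e, fB_add (intB hg hG (fP_cont p) hη).1 (intB hg hG (fP_cont q) hη').1]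
    refine (hp.add hq).congr' ?_
    filter_upwards [hs, eventually_gt_atTop 0] with L h hL
    rw [fA_add (sumA hL hη h.1 h.2).1 (sumA hL hη' h.1 h.2).1]
  | monomial j a =>
    have e : ∀ v, fP (Polynomial.monomial j a) v = a * Real.exp (-((j + 1 : ℕ) : ℝ) * v) := by
      intro v
      rw [fP, Polynomial.eval_monomial, ← Real.exp_nat_mul, mul_left_comm, ← Real.exp_add]
      congr 2
      push_cast
      ring
    have h1 := (ht (j + 1) (by omega)).const_mul (a : ℂ)
    have h2 : fB g (fP (Polynomial.monomial j a)) =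
        a * (1 + ∫ v in Set.Ioi (0 : ℝ), g v * (Real.exp (-((j + 1 : ℕ) : ℝ) * v) : ℝ)) := by
      rw [fB, mul_add, ← integral_const_mul, e 0]
      congr 1
      · simp
      · refine integral_congr_ae (Eventually.of_forall fun v => ?_)
        simp only [e]
        push_cast
        ring
    rw [h2]
    refine h1.congr fun L => ?_
    rw [fA, ← tsum_mul_left]
    refine tsum_congr fun n => ?_
    rcases Nat.eq_zero_or_pos n with rfl | hn
    · simp [h0]
    · rw [exp_eq hn, e]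
      push_cast
      ring

end Main

theorem exists_poly {φ : ℝ → ℝ} {v₁ η : ℝ} (hφ : Continuous φ) (h1 : ∀ v, v₁ ≤ v → φ v = 0)
    (hη : 0 < η) : ∃ P : Polynomial ℝ, ∀ v, 0 ≤ v → |φ v - fP P v| ≤ η * Real.exp (-v) := by
  have hm : ∀ u : ℝ, 0 < max u (Real.exp (-v₁)) := fun u =>
    lt_of_lt_of_le (Real.exp_pos _) (le_max_right _ _)
  let ψ : ℝ → ℝ := fun u => φ (-Real.log (max u (Real.exp (-v₁)))) / max u (Real.exp (-v₁))
  have hψ : Continuous ψ := by
    refine Continuous.div (hφ.comp (Continuous.neg ?_)) (by fun_prop) fun u => (hm u).ne'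
    exact Continuous.log (by fun_prop) fun u => (hm u).ne'
  obtain ⟨P, hP⟩ := exists_polynomial_near_of_continuousOn 0 1 ψ hψ.continuousOn η hη
  refine ⟨P, fun v hv => ?_⟩
  have e : φ v = Real.exp (-v) * ψ (Real.exp (-v)) := by
    simp only [ψ]
    rcases le_total v v₁ with h | h
    · rw [max_eq_left (Real.exp_le_exp.2 (by linarith)), Real.log_exp, neg_neg]
      field_simp
    · rw [max_eq_right (Real.exp_le_exp.2 (by linarith)), Real.log_exp, neg_neg, h1 v h,
        h1 v₁ le_rfl]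
      simp
  rw [e, fP, ← mul_sub, abs_mul, abs_of_pos (Real.exp_pos _), mul_comm, abs_sub_comm]
  exact mul_le_mul_of_nonneg_right (hP _ (exp_mem hv)).le (Real.exp_pos _).le

theorem kar : KarStmt := by
  intro c g G M hg hG h0 ht hs φ v₁ hφ h1
  change Tendsto (fA c φ) atTop (𝓝 (fB g φ))
  rw [Metric.tendsto_nhds]
  intro ε hε
  have hK : 0 < |M| + 1 + |G| := by positivity
  obtain ⟨P, hP⟩ := exists_poly hφ h1 (η := ε / (2 * (|M| + 1 + |G|))) (by positivity)
  set η := ε / (2 * (|M| + 1 + |G|)) with hη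
  have hη0 : 0 < η := by positivity
  have hη1 : η * (|M| + 1 + |G|) = ε / 2 := by
    rw [hη]
    field_simp
  obtain ⟨η', hη'⟩ := fP_bound P
  have e : φ = fun v => fP P v + (φ v - fP P v) := by
    funext v
    ring
  have b1 := intB (F := fun v => φ v - fP P v) hg hG (hφ.sub (fP_cont P)) hP
  have e1 : fB g φ = fB g (fP P) + fB g fun v => φ v - fP P v := by
    rw [← fB_add (intB hg hG (fP_cont P) hη').1 b1.1, ← e]
  filter_upwards [hs, eventually_gt_atTop 0,
    Metric.tendsto_nhds.1 (poly_tendsto hg hG h0 ht hs P) (ε / 2) (by positivity)] with L h hL hd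
  have a1 := sumA (F := fun v => φ v - fP P v) hL hP h.1 h.2
  have e2 : fA c φ L = fA c (fP P) L + fA c (fun v => φ v - fP P v) L := by
    rw [← fA_add (F := fP P) (F' := fun v => φ v - fP P v) (sumA hL hη' h.1 h.2).1 a1.1, ← e]
  rw [dist_eq_norm] at hd ⊢
  rw [e1, e2, show ∀ a b a' b' : ℂ, a + b - (a' + b') = a - a' + (b - b') by intros; ring]
  have t1 := norm_add_le (fA c (fP P) L - fB g (fP P))
    (fA c (fun v => φ v - fP P v) L - fB g fun v => φ v - fP P v)
  have t2 := norm_sub_le (fA c (fun v => φ v - fP P v) L) (fB g fun v => φ v - fP P v)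
  have t3 := mul_le_mul_of_nonneg_left (le_abs_self M) hη0.le
  have t4 := mul_le_mul_of_nonneg_left (le_abs_self G) hη0.le
  have t5 := a1.2
  have t6 := b1.2
  nlinarith

/-! ### The mass of windows -/

theorem zeta_lim {z : ℝ} (hz : 0 < z) :
    Tendsto (fun L : ℝ => ((z / L : ℝ) : ℂ) * riemannZeta (1 + (z / L : ℝ))) atTop (𝓝 1) := by
  have h1 : Tendsto (fun L : ℝ => (1 : ℂ) + (z / L : ℝ)) atTop (𝓝[≠] 1) := by
    refine tendsto_nhdsWithin_of_tendsto_nhds_of_eventually_within _ ?_ ?_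
    · have h := ((Complex.continuous_ofReal.tendsto 0).comp
        (tendsto_const_nhds.div_atTop tendsto_id : Tendsto (fun L : ℝ => z / L) atTop (𝓝 0))).const_add 1
      simpa using h
    · filter_upwards [eventually_gt_atTop 0] with L hL
      have : (0 : ℝ) < z / L := by positivity
      simp only [Set.mem_compl_iff, Set.mem_singleton_iff, add_eq_left, ofReal_eq_zero]
      exact this.ne'
  simpa [Function.comp_def] using riemannZeta_residue_one.comp h1

theorem term_eq (c : ℕ → ℂ) (h0 : c 0 = 0) (s : ℝ) (n : ℕ) :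
    LSeries.term c (1 + (s : ℝ)) n = c n * (Real.exp (-(1 + s) * Real.log n) : ℝ) := by
  rcases Nat.eq_zero_or_pos n with rfl | hn
  · simp [h0]
  · have hn' : (0 : ℝ) < n := by exact_mod_cast hn
    rw [LSeries.term_of_ne_zero hn.ne', mul_comm (-(1 + s)), ← Real.rpow_def_of_pos hn',
      Real.rpow_neg hn'.le, div_eq_mul_inv, Complex.ofReal_inv, Complex.ofReal_cpow hn'.le]
    push_cast
    rfl

theorem laplace (h : Ar1Stmt) {Y k : ℝ} (hY : 0 < Y) (hk : 0 < k) :
    (∀ L : ℝ, 0 < L → Summable fun n : ℕ =>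
      rc 0 (Y / L : ℝ) n * (Real.exp (-(1 + k / L) * Real.log n) : ℝ)) ∧
    Tendsto (fun L : ℝ => ∑' n : ℕ, rc 0 (Y / L : ℝ) n * (Real.exp (-(1 + k / L) * Real.log n) : ℝ))
      atTop (𝓝 (1 + (Y / k : ℝ))) := by
  obtain ⟨-, -, h3, h4, -⟩ := h
  have key : ∀ L : ℝ, 0 < L → LSeriesSummable (rc 0 (Y / L : ℝ)) (1 + (k / L : ℝ)) ∧
      LSeries (rc 0 (Y / L : ℝ)) (1 + (k / L : ℝ)) =
        riemannZeta (1 + (k / L : ℝ) + 0) / riemannZeta (1 + (k / L : ℝ) + (Y / L : ℝ)) := by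
    intro L hL
    have a1 : 0 < k / L := by positivity
    have a2 : 0 < Y / L := by positivity
    refine h3 _ _ _ ?_ ?_
    · simp only [add_zero, add_re, one_re, ofReal_re]
      linarith
    · simp only [add_re, one_re, ofReal_re]
      linarith
  refine ⟨fun L hL => ?_, ?_⟩
  · exact (key L hL).1.congr fun n => term_eq _ (h4 _ _).1 _ n
  · have h5 := ((zeta_lim hk).div (zeta_lim (add_pos hk hY)) one_ne_zero).mul_const
      (1 + ((Y / k : ℝ) : ℂ))
    rw [div_one, one_mul] at h5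
    refine h5.congr' ?_
    filter_upwards [eventually_gt_atTop 0] with L hL
    have e1 := (key L hL).2
    rw [LSeries, tsum_congr (term_eq _ (h4 _ _).1 _), add_zero] at e1
    have e2 : (1 : ℂ) + (k / L : ℝ) + (Y / L : ℝ) = 1 + ((k + Y) / L : ℝ) := by
      push_cast
      ring
    have n1 : (L : ℂ) ≠ 0 := by exact_mod_cast hL.ne'
    have n2 : (k : ℂ) ≠ 0 := by exact_mod_cast hk.ne'
    have n3 : (k : ℂ) + Y ≠ 0 := by exact_mod_cast (add_pos hk hY).ne'
    rw [e1, e2, Pi.div_apply, mul_div_mul_comm]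
    generalize riemannZeta (1 + (k / L : ℝ)) / riemannZeta (1 + ((k + Y) / L : ℝ)) = q
    push_cast
    field_simp

/-- The trapezoid. -/
noncomputable def trap (τ j v : ℝ) : ℝ := max 0 (min 1 (2 - |v / τ - (j + 1)|))

theorem trap_cont (τ j : ℝ) : Continuous (trap τ j) := by
  unfold trap
  fun_prop

theorem trap_nonneg (τ j v : ℝ) : 0 ≤ trap τ j v := le_max_left _ _

theorem trap_le (τ j v : ℝ) : trap τ j v ≤ 1 := max_le zero_le_one (min_le_left _ _)

theorem trap_zero {τ j v : ℝ} (hτ : 0 < τ) (h : v ≤ (j - 1) * τ ∨ (j + 3) * τ ≤ v) :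
    trap τ j v = 0 := by
  refine max_eq_left ((min_le_right _ _).trans ?_)
  rcases h with h | h
  · have := (div_le_iff₀ hτ).2 h
    linarith [neg_le_abs (v / τ - (j + 1))]
  · have := (le_div_iff₀ hτ).2 h
    linarith [le_abs_self (v / τ - (j + 1))]

theorem trap_one {τ j v : ℝ} (hτ : 0 < τ) (h : j * τ ≤ v) (h' : v ≤ (j + 2) * τ) :
    trap τ j v = 1 := by
  have a1 := (le_div_iff₀ hτ).2 h
  have a2 := (div_le_iff₀ hτ).2 h'
  have : |v / τ - (j + 1)| ≤ 1 := abs_le.2 ⟨by linarith, by linarith⟩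
  rw [trap, min_eq_left (by linarith), max_eq_right zero_le_one]

theorem trap_exp {τ : ℝ} (hτ : 0 < τ) (j v : ℝ) :
    |trap τ j v| ≤ Real.exp ((j + 3) * τ) * Real.exp (-v) := by
  rcases le_total v ((j + 3) * τ) with h | h
  · rw [abs_of_nonneg (trap_nonneg _ _ _), ← Real.exp_add]
    exact (trap_le _ _ _).trans (Real.one_le_exp (by linarith))
  · rw [trap_zero hτ (Or.inr h), abs_zero]
    positivity

theorem trap_int {τ Y : ℝ} (hτ : 0 < τ) (hY : 0 ≤ Y) (j : ℝ) :
    ‖fB (fun _ => (Y : ℂ)) (trap τ j)‖ ≤ 1 + 4 * (Y * τ) := by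
  have h1 : ‖((trap τ j 0 : ℝ) : ℂ)‖ ≤ 1 := by
    rw [Complex.norm_real, Real.norm_of_nonneg (trap_nonneg _ _ _)]
    exact trap_le _ _ _
  have hi : Integrable ((Set.Icc ((j - 1) * τ) ((j + 3) * τ)).indicator fun _ : ℝ => Y) :=
    (integrable_indicator_iff measurableSet_Icc).2 (integrableOn_const (by simp))
  have h2 : ‖∫ v in Set.Ioi (0 : ℝ), (Y : ℂ) * (trap τ j v : ℝ)‖ ≤
      ∫ v in Set.Ioi (0 : ℝ), (Set.Icc ((j - 1) * τ) ((j + 3) * τ)).indicator (fun _ => Y) v := by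
    refine norm_integral_le_of_norm_le hi.integrableOn (Eventually.of_forall fun v => ?_)
    rw [norm_mul, Complex.norm_real, Complex.norm_real, Real.norm_of_nonneg hY,
      Real.norm_of_nonneg (trap_nonneg _ _ _)]
    by_cases hv : v ∈ Set.Icc ((j - 1) * τ) ((j + 3) * τ)
    · rw [Set.indicator_of_mem hv]
      exact mul_le_of_le_one_right hY (trap_le _ _ _)
    · rw [Set.indicator_of_notMem hv, trap_zero hτ, mul_zero]
      rw [Set.mem_Icc, not_and_or, not_le, not_le] at hv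
      exact hv.imp le_of_lt le_of_lt
  have h3 := setIntegral_le_integral (s := Set.Ioi (0 : ℝ)) hi
    (Eventually.of_forall fun v => Set.indicator_nonneg (fun _ _ => hY) v)
  rw [integral_indicator_const (μ := volume) _ measurableSet_Icc,
    Real.volume_real_Icc_of_le (by nlinarith), smul_eq_mul] at h3
  refine (norm_add_le _ _).trans ?_
  nlinarith

theorem m1 : Ar1Stmt → KarStmt → M1Stmt := by
  intro h hk Y τ hY hτ hYτ
  have hY0 : 0 < Y := by linarith
  have hr : ∀ L : ℝ, 0 < L → ∀ n : ℕ, 0 ≤ (rc 0 (Y / L : ℝ) n).re ∧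
      rc 0 (Y / L : ℝ) n = ((rc 0 (Y / L : ℝ) n).re : ℝ) := by
    intro L hL n
    obtain ⟨a1, -, a2, -⟩ := h.2.2.2.2.1 (Y / L) n (by positivity)
    exact ⟨(norm_nonneg _).trans a1, Complex.ext (by simp) (by simpa using a2)⟩
  have hn : ∀ L : ℝ, 0 < L → ∀ n : ℕ, ‖rc 0 (Y / L : ℝ) n‖ = (rc 0 (Y / L : ℝ) n).re := by
    intro L hL n
    rw [(hr L hL n).2, Complex.norm_real, Real.norm_of_nonneg (hr L hL n).1, Complex.ofReal_re]
  have hs : ∀ᶠ L : ℝ in atTop,
      (Summable fun n : ℕ => ‖rc 0 (Y / L : ℝ) n‖ * Real.exp (-(1 + 1 / L) * Real.log n)) ∧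
      ∑' n : ℕ, ‖rc 0 (Y / L : ℝ) n‖ * Real.exp (-(1 + 1 / L) * Real.log n) ≤ 2 + Y := by
    obtain ⟨l1, l2⟩ := laplace h hY0 one_pos
    have l3 := (Complex.continuous_re.tendsto _).comp l2
    have l4 : (1 + ((Y / 1 : ℝ) : ℂ)).re < 2 + Y := by
      simp
    filter_upwards [eventually_gt_atTop 0, l3.eventually (gt_mem_nhds l4)] with L hL h1
    have e : ∀ n : ℕ, ‖rc 0 (Y / L : ℝ) n‖ * Real.exp (-(1 + 1 / L) * Real.log n) =
        (rc 0 (Y / L : ℝ) n * (Real.exp (-(1 + 1 / L) * Real.log n) : ℝ)).re := by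
      intro n
      rw [Complex.re_mul_ofReal, hn L hL]
    simp only [e]
    have l5 := Complex.hasSum_re (l1 L hL).hasSum
    exact ⟨l5.summable, l5.tsum_eq.le.trans h1.le⟩
  have ht : ∀ j : ℕ, Tendsto (fA (fun L => rc 0 (Y / L : ℝ)) (trap τ j)) atTop
      (𝓝 (fB (fun _ => (Y : ℂ)) (trap τ j))) := by
    intro j
    refine hk (fun L => rc 0 (Y / L : ℝ)) (fun _ => (Y : ℂ)) Y (2 + Y) continuous_const
      (fun v _ => by rw [Complex.norm_real, Real.norm_of_nonneg hY0.le])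
      (fun L => (h.2.2.2.1 _ _).1) (fun k hk1 => ?_) hs (trap τ j) ((j + 3) * τ) (trap_cont _ _)
      fun v hv => trap_zero hτ (Or.inr hv)
    have hk0 : (0 : ℝ) < k := by exact_mod_cast hk1
    have e : ∫ v in Set.Ioi (0 : ℝ), (Y : ℂ) * (Real.exp (-k * v) : ℝ) = (Y / k : ℝ) := by
      rw [integral_const_mul, integral_complex_ofReal, integral_exp_mul_Ioi (by linarith)]
      push_cast
      simp [div_eq_mul_inv]
    rw [e]
    exact (laplace h hY0 hk0).2
  have hall : ∀ᶠ L : ℝ in atTop, ∀ j ∈ Finset.range (⌊1 / τ⌋₊ + 1),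
      ‖fA (fun L => rc 0 (Y / L : ℝ)) (trap τ j) L‖ < 8 := by
    rw [Filter.eventually_all_finset]
    intro j _
    exact (ht j).norm.eventually (gt_mem_nhds ((trap_int hτ hY0.le j).trans_lt (by linarith)))
  filter_upwards [hs, hall, eventually_gt_atTop 0] with L h1 h2 hL M x hM hx
  rcases (win M x (τ * L)).eq_empty_or_nonempty with he | ⟨n₀, hn₀⟩
  · rw [he, Finset.sum_empty]
    norm_num
  have hw : ∀ n ∈ win M x (τ * L), 0 ≤ Real.log n / L ∧ Real.log n / L ≤ 1 ∧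
      Real.log x / L ≤ Real.log n / L ∧ Real.log n / L ≤ Real.log x / L + τ := by
    intro n hn
    simp only [win, Finset.mem_filter, Finset.mem_Icc] at hn
    obtain ⟨⟨a1, a2⟩, a3, a4⟩ := hn
    have b1 : (0 : ℝ) < n := by linarith
    have b2 : Real.log n ≤ Real.log M := Real.log_le_log b1 (by exact_mod_cast a2)
    have b3 := Real.log_le_log hx a3.le
    have b4 := Real.log_le_log b1 a4
    rw [Real.log_mul hx.ne' (Real.exp_pos _).ne', Real.log_exp] at b4
    refine ⟨div_nonneg (Real.log_natCast_nonneg n) hL.le, (div_le_one hL).2 (by linarith),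
      by gcongr, ?_⟩
    rw [div_add' _ _ _ hL.ne']
    gcongr
  set w := Real.log x / L with hwd
  have hj : ⌊w / τ⌋₊ ∈ Finset.range (⌊1 / τ⌋₊ + 1) := by
    rw [Finset.mem_range, Nat.lt_succ_iff]
    refine Nat.floor_mono (div_le_div_of_nonneg_right ?_ hτ.le)
    exact (hw n₀ hn₀).2.2.1.trans (hw n₀ hn₀).2.1
  have h3 := h2 _ hj
  set j := ⌊w / τ⌋₊ with hjd
  have h4 := (sumA (c := fun L => rc 0 (Y / L : ℝ)) hL (fun v _ => trap_exp hτ j v) h1.1 h1.2).1
  have h5 := Complex.hasSum_re h4.hasSum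
  refine le_trans ?_ (((Complex.re_le_norm _).trans h3.le))
  refine le_trans (le_of_eq (Finset.sum_congr rfl fun n hn => ?_))
    (sum_le_hasSum (win M x (τ * L)) (fun n _ => ?_) h5)
  · obtain ⟨a1, -, a2, a3⟩ := hw n hn
    rw [Complex.re_mul_ofReal, trap_one hτ, mul_one_div]
    · rcases le_total 0 (w / τ) with b | b
      · exact ((le_div_iff₀ hτ).1 (Nat.floor_le b)).trans a2
      · rw [hjd, Nat.floor_of_nonpos b]
        simpa using a1
    · have := (div_lt_iff₀ hτ).1 (Nat.lt_floor_add_one (w / τ))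
      linarith
  · rw [Complex.re_mul_ofReal]
    exact mul_nonneg (hr L hL n).1 (div_nonneg (trap_nonneg _ _ _) (Nat.cast_nonneg n))

end Pool.Agent.MP_ca0a54_nt.H62
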